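import Pool.Agent.H89.FM.Targets1

/-!
# Fourth moment over the class groups: row CAB, the fractions for a given dual point
-/

set_option autoImplicit false

open MeasureTheory Set Filter
open scoped Real Matrix MatrixGroups

namespace Pool.Agent.H23.FM

open Pool.Agent.H31.CN Pool.Agent.H89.FM

/-- the bilinear form of a real symmetric matrix -/
def BF (E : ℝ × ℝ × ℝ) (x y : ℝ × ℝ) : ℝ :=
  E.1 * x.1 * y.1 + E.2.1 * (x.1 * y.2 + x.2 * y.1) + E.2.2 * x.2 * y.2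

theorem BF_sq_le {ρ : ℝ} (hρ : 0 < ρ) (E : ℝ × ℝ × ℝ) (x y : ℝ × ℝ) :
    BF E x y ^ 2 ≤ 2 * dz ρ E * (ρ * x.1 ^ 2 + x.2 ^ 2 / ρ) * (ρ * y.1 ^ 2 + y.2 ^ 2 / ρ) := by
  unfold BF dz
  set s := Real.sqrt ρ with hs
  have hs0 : 0 < s := Real.sqrt_pos.2 hρ
  have hss : s ^ 2 = ρ := Real.sq_sqrt hρ.le
  have e1 : E.1 * x.1 * y.1 = (E.1 / s ^ 2) * ((s * x.1) * (s * y.1)) := by
    field_simp
  have e2 : E.2.1 * (x.1 * y.2 + x.2 * y.1) =
      E.2.1 * ((s * x.1) * (y.2 / s) + (x.2 / s) * (s * y.1)) := by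
    field_simp
  have e3 : E.2.2 * x.2 * y.2 = (s ^ 2 * E.2.2) * ((x.2 / s) * (y.2 / s)) := by
    field_simp
  rw [e1, e2, e3]
  have f1 : s ^ 2 * x.1 ^ 2 + x.2 ^ 2 / s ^ 2 = (s * x.1) ^ 2 + (x.2 / s) ^ 2 := by
    rw [mul_pow, div_pow]
  have f2 : s ^ 2 * y.1 ^ 2 + y.2 ^ 2 / s ^ 2 = (s * y.1) ^ 2 + (y.2 / s) ^ 2 := by
    rw [mul_pow, div_pow]
  rw [← hss, f1, f2]
  generalize s * x.1 = a
  generalize x.2 / s = b
  generalize s * y.1 = a'
  generalize y.2 / s = b'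
  generalize E.1 / s ^ 2 = p
  generalize s ^ 2 * E.2.2 = r
  generalize E.2.1 = q
  have h1 : (p * (a * a') + q * (a * b' + b * a') + r * (b * b')) ^ 2 ≤
      (p ^ 2 + q ^ 2 + r ^ 2) * ((a * a') ^ 2 + (a * b' + b * a') ^ 2 + (b * b') ^ 2) := by
    nlinarith [sq_nonneg (p * (a * b' + b * a') - q * (a * a')),
      sq_nonneg (p * (b * b') - r * (a * a')), sq_nonneg (q * (b * b') - r * (a * b' + b * a'))]
  have h2 : (a * a') ^ 2 + (a * b' + b * a') ^ 2 + (b * b') ^ 2 ≤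
      2 * ((a ^ 2 + b ^ 2) * (a' ^ 2 + b' ^ 2)) := by
    nlinarith [sq_nonneg (a * b' - b * a'), sq_nonneg (a * a'), sq_nonneg (b * b')]
  have h3 : 0 ≤ p ^ 2 + q ^ 2 + r ^ 2 := by positivity
  nlinarith [mul_le_mul_of_nonneg_left h2 h3]

theorem dz_sub_le (ρ : ℝ) (E E' : ℝ × ℝ × ℝ) :
    dz ρ (E - E') ≤ 2 * dz ρ E + 2 * dz ρ E' := by
  unfold dz
  have e1 : (E - E').1 = E.1 - E'.1 := rfl
  have e2 : (E - E').2.1 = E.2.1 - E'.2.1 := rfl
  have e3 : (E - E').2.2 = E.2.2 - E'.2.2 := rfl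
  rw [e1, e2, e3, sub_div, mul_sub]
  nlinarith [sq_nonneg (E.1 / ρ + E'.1 / ρ), sq_nonneg (E.2.1 + E'.2.1),
    sq_nonneg (ρ * E.2.2 + ρ * E'.2.2)]

theorem nr_pos {ρ : ℝ} (hρ : 0 < ρ) {v : ℤ × ℤ} (hv : v.1 ≠ 0 ∨ v.2 ≠ 0) : 0 < nr ρ v := by
  unfold nr
  rcases hv with h | h
  · have h1 : (0 : ℝ) < (v.1 : ℝ) ^ 2 := by
      have : (v.1 : ℝ) ≠ 0 := by exact_mod_cast h
      positivity
    have h2 : 0 < (v.1 : ℝ) ^ 2 / ρ := div_pos h1 hρ
    have h3 : 0 ≤ ρ * (v.2 : ℝ) ^ 2 := by positivity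
    linarith
  · have h1 : (0 : ℝ) < (v.2 : ℝ) ^ 2 := by
      have : (v.2 : ℝ) ≠ 0 := by exact_mod_cast h
      positivity
    have h2 : 0 ≤ (v.1 : ℝ) ^ 2 / ρ := by positivity
    have h3 : 0 < ρ * (v.2 : ℝ) ^ 2 := mul_pos hρ h1
    linarith

theorem ne_of_det {v w : ℤ × ℤ} (h : det v w ≠ 0) :
    (v.1 ≠ 0 ∨ v.2 ≠ 0) ∧ (w.1 ≠ 0 ∨ w.2 ≠ 0) := by
  unfold det at h
  constructor
  · by_contra hc
    push Not at hc
    apply h
    rw [hc.1, hc.2]
    ring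
  · by_contra hc
    push Not at hc
    apply h
    rw [hc.1, hc.2]
    ring

/-- well separated points in a short interval -/
theorem sep_card {ι : Type*} (F : Finset ι) (f : ι → ℝ) (g l : ℝ) (hg : 0 < g) (hl : 0 ≤ l)
    (hsep : ∀ x ∈ F, ∀ y ∈ F, x ≠ y → g ≤ |f x - f y|)
    (hclose : ∀ x ∈ F, ∀ y ∈ F, |f x - f y| ≤ l) : (F.card : ℝ) ≤ 1 + l / g := by
  classical
  rcases F.eq_empty_or_nonempty with rfl | hne
  · simp only [Finset.card_empty, Nat.cast_zero]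
    positivity
  obtain ⟨x₀, hx₀, hmin⟩ := F.exists_min_image f hne
  have hmap : ∀ x ∈ F, ⌊(f x - f x₀) / g⌋₊ ∈ Finset.range (⌊l / g⌋₊ + 1) := by
    intro x hx
    rw [Finset.mem_range, Nat.lt_succ_iff]
    refine Nat.floor_le_floor ?_
    refine (div_le_div_iff_of_pos_right hg).2 ?_
    exact (le_abs_self _).trans (hclose x hx x₀ hx₀)
  have hinj : ∀ x ∈ F, ∀ y ∈ F, ⌊(f x - f x₀) / g⌋₊ = ⌊(f y - f x₀) / g⌋₊ → x = y := by
    have key : ∀ x ∈ F, ∀ y ∈ F, f x < f y → g ≤ |f x - f y| →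
        ⌊(f x - f x₀) / g⌋₊ < ⌊(f y - f x₀) / g⌋₊ := by
      intro x hx y hy hxy hgap
      have h0 : 0 ≤ (f x - f x₀) / g := div_nonneg (by linarith [hmin x hx]) hg.le
      have h1 : (f x - f x₀) / g + 1 ≤ (f y - f x₀) / g := by
        rw [abs_sub_comm, abs_of_pos (by linarith)] at hgap
        rw [div_add_one hg.ne']
        exact (div_le_div_iff_of_pos_right hg).2 (by linarith)
      rw [← Nat.succ_le_iff, Nat.succ_eq_add_one, ← Nat.floor_add_one h0]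
      exact Nat.floor_le_floor h1
    intro x hx y hy hxy
    by_contra hne'
    have hgap := hsep x hx y hy hne'
    rcases lt_trichotomy (f x) (f y) with h | h | h
    · exact absurd hxy (ne_of_lt (key x hx y hy h hgap))
    · rw [h, sub_self, abs_zero] at hgap
      linarith
    · rw [abs_sub_comm] at hgap
      exact absurd hxy.symm (ne_of_lt (key y hy x hx h hgap))
  have hcard := Finset.card_le_card_of_injOn (s := F) (t := Finset.range (⌊l / g⌋₊ + 1))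
    (fun x => ⌊(f x - f x₀) / g⌋₊) hmap (fun x hx y hy h => hinj x hx y hy h)
  rw [Finset.card_range] at hcard
  have h1 : (F.card : ℝ) ≤ (⌊l / g⌋₊ : ℝ) + 1 := by exact_mod_cast hcard
  have h2 : (⌊l / g⌋₊ : ℝ) ≤ l / g := Nat.floor_le (by positivity)
  linarith

/-- counting by fibres -/
theorem card_fib {ι κ : Type*} [DecidableEq κ] (F : Finset ι) (f : ι → κ) (N K : ℝ) (hN : 0 ≤ N)
    (hfib : ∀ a ∈ F.image f, ((F.filter fun x => f x = a).card : ℝ) ≤ N)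
    (him : ((F.image f).card : ℝ) ≤ K) : (F.card : ℝ) ≤ K * N := by
  have h1 : (F.card : ℝ) = ∑ a ∈ F.image f, ((F.filter fun x => f x = a).card : ℝ) := by
    rw [← Nat.cast_sum]
    congr 1
    exact Finset.card_eq_sum_card_image f F
  rw [h1]
  refine (Finset.sum_le_sum hfib).trans ?_
  rw [Finset.sum_const, nsmul_eq_mul]
  exact mul_le_mul_of_nonneg_right him hN

/-- different reduced fractions are well separated -/
theorem frac_gap {A : ℝ} {n j n' j' : ℕ} (hn : (n : ℝ) ≤ A) (hj : j < n) (hc : Nat.Coprime j n)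
    (hn' : (n' : ℝ) ≤ A) (hj' : j' < n') (hc' : Nat.Coprime j' n') (hne : (n, j) ≠ (n', j')) :
    1 / A ^ 2 ≤ |(j : ℝ) / n - (j' : ℝ) / n'| := by
  have h0 : 0 < n := by omega
  have h0' : 0 < n' := by omega
  have hn0 : (0 : ℝ) < n := by exact_mod_cast h0
  have hn0' : (0 : ℝ) < n' := by exact_mod_cast h0'
  have hint : ((j : ℤ) * n' - j' * n) ≠ 0 := by
    intro h
    apply hne
    have h1 : j * n' = j' * n := by
      have : (j : ℤ) * n' = j' * n := by linarith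
      exact_mod_cast this
    have h2 : n ∣ n' := by
      have : n ∣ j * n' := by rw [h1]; exact dvd_mul_left _ _
      exact (Nat.Coprime.dvd_of_dvd_mul_left hc.symm this)
    have h3 : n' ∣ n := by
      have : n' ∣ j' * n := by rw [← h1]; exact dvd_mul_left _ _
      exact (Nat.Coprime.dvd_of_dvd_mul_left hc'.symm this)
    have h4 : n = n' := Nat.dvd_antisymm h2 h3
    subst h4
    have h5 : j = j' := Nat.eq_of_mul_eq_mul_right h0 h1
    rw [h5]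
  have h1 : (1 : ℝ) ≤ |(j : ℝ) * n' - j' * n| := by
    have : (1 : ℤ) ≤ |(j : ℤ) * n' - j' * n| := Int.one_le_abs hint
    exact_mod_cast this
  have h2 : (j : ℝ) / n - (j' : ℝ) / n' = ((j : ℝ) * n' - j' * n) / (n * n') := by
    field_simp
  rw [h2, abs_div, abs_of_pos (mul_pos hn0 hn0')]
  have hA : (n : ℝ) * n' ≤ A ^ 2 := by nlinarith
  have hA0 : 0 < A ^ 2 := lt_of_lt_of_le (mul_pos hn0 hn0') hA
  rw [div_le_div_iff₀ hA0 (mul_pos hn0 hn0')]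
  nlinarith

theorem pf_CAB : T_CAB := by
  classical
  refine ⟨4, by norm_num, ?_⟩
  intro ρ η A B v w ν F hρ hη hA hB hdet hF
  obtain ⟨hv0, hw0⟩ := ne_of_det hdet
  have hV : 0 < nr ρ v := nr_pos hρ hv0
  have hW : 0 < nr ρ w := nr_pos hρ hw0
  have hd : (0 : ℝ) < |(det v w : ℝ)| := abs_pos.2 (by exact_mod_cast hdet)
  -- differences of two elements
  have hdiff : ∀ x ∈ F, ∀ y ∈ F,
      dz ρ ((((x.1.2 : ℝ) / x.1.1) - ((y.1.2 : ℝ) / y.1.1)) • sq2 v -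
        (((x.2.2 : ℝ) / x.2.1) - ((y.2.2 : ℝ) / y.2.1)) • sq2 w) ≤ 4 * η ^ 2 := by
    intro x hx y hy
    have h1 := (hF x hx).2.2.2.2.2.2
    have h2 := (hF y hy).2.2.2.2.2.2
    have h3 := dz_sub_le ρ (ν + ((x.1.2 : ℝ) / x.1.1) • sq2 v - ((x.2.2 : ℝ) / x.2.1) • sq2 w)
      (ν + ((y.1.2 : ℝ) / y.1.1) • sq2 v - ((y.2.2 : ℝ) / y.2.1) • sq2 w)
    have h4 : (ν + ((x.1.2 : ℝ) / x.1.1) • sq2 v - ((x.2.2 : ℝ) / x.2.1) • sq2 w) -
      (ν + ((y.1.2 : ℝ) / y.1.1) • sq2 v - ((y.2.2 : ℝ) / y.2.1) • sq2 w) =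
      ((((x.1.2 : ℝ) / x.1.1) - ((y.1.2 : ℝ) / y.1.1)) • sq2 v -
        (((x.2.2 : ℝ) / x.2.1) - ((y.2.2 : ℝ) / y.2.1)) • sq2 w) := by
      rw [sub_smul, sub_smul]
      abel
    rw [h4] at h3
    linarith
  -- the first fractions
  have hfirst : ∀ x ∈ F, ∀ y ∈ F, |(x.1.2 : ℝ) / x.1.1 - (y.1.2 : ℝ) / y.1.1| ≤
      4 * η * Real.sqrt (nr ρ w) / (|(det v w : ℝ)| * Real.sqrt (nr ρ v)) := by
    intro x hx y hy
    have h1 := hdiff x hx y hy
    set a : ℝ := (x.1.2 : ℝ) / x.1.1 - (y.1.2 : ℝ) / y.1.1 with ha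
    set b : ℝ := (x.2.2 : ℝ) / x.2.1 - (y.2.2 : ℝ) / y.2.1 with hb
    have h2 := BF_sq_le hρ (a • sq2 v - b • sq2 w) (-(w.2 : ℝ), (w.1 : ℝ))
      ((v.1 : ℝ) / ρ, ρ * (v.2 : ℝ))
    have h3 : BF (a • sq2 v - b • sq2 w) (-(w.2 : ℝ), (w.1 : ℝ)) ((v.1 : ℝ) / ρ, ρ * (v.2 : ℝ)) =
        -(a * (det v w : ℝ) * nr ρ v) := by
      unfold BF det nr sq2
      simp only [Prod.fst_sub, Prod.snd_sub, Prod.smul_fst, Prod.smul_snd, smul_eq_mul]
      push_cast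
      field_simp
      ring
    have h4 : ρ * (-(w.2 : ℝ)) ^ 2 + (w.1 : ℝ) ^ 2 / ρ = nr ρ w := by
      unfold nr
      ring
    have h5 : ρ * ((v.1 : ℝ) / ρ) ^ 2 + (ρ * (v.2 : ℝ)) ^ 2 / ρ = nr ρ v := by
      unfold nr
      field_simp
    rw [h3] at h2
    simp only at h2
    rw [h4, h5] at h2
    have h6 : (a * (det v w : ℝ)) ^ 2 * nr ρ v ≤ 8 * η ^ 2 * nr ρ w := by
      have h7 : (a * (det v w : ℝ)) ^ 2 * nr ρ v * nr ρ v ≤ 8 * η ^ 2 * nr ρ w * nr ρ v := by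
        have h8 : 2 * dz ρ (a • sq2 v - b • sq2 w) * nr ρ w * nr ρ v ≤
            2 * (4 * η ^ 2) * nr ρ w * nr ρ v :=
          mul_le_mul_of_nonneg_right (mul_le_mul_of_nonneg_right (by linarith) hW.le) hV.le
        nlinarith
      exact le_of_mul_le_mul_right h7 hV
    have hsv : 0 < Real.sqrt (nr ρ v) := Real.sqrt_pos.2 hV
    rw [le_div_iff₀ (mul_pos hd hsv)]
    have h9 : (|a| * (|(det v w : ℝ)| * Real.sqrt (nr ρ v))) ^ 2 ≤
        (4 * η * Real.sqrt (nr ρ w)) ^ 2 := by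
      have e1 : (|a| * (|(det v w : ℝ)| * Real.sqrt (nr ρ v))) ^ 2 =
          (a * (det v w : ℝ)) ^ 2 * nr ρ v := by
        rw [mul_pow, mul_pow, sq_abs, sq_abs, Real.sq_sqrt hV.le]
        ring
      have e2 : (4 * η * Real.sqrt (nr ρ w)) ^ 2 = 16 * η ^ 2 * nr ρ w := by
        rw [mul_pow, mul_pow, Real.sq_sqrt hW.le]
        ring
      rw [e1, e2]
      have : 0 ≤ η ^ 2 * nr ρ w := by positivity
      linarith
    exact (abs_le_of_sq_le_sq' h9 (by positivity)).2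
  -- the second fractions
  have hsecond : ∀ x ∈ F, ∀ y ∈ F, x.1 = y.1 → |(x.2.2 : ℝ) / x.2.1 - (y.2.2 : ℝ) / y.2.1| ≤
      4 * η / nr ρ w := by
    intro x hx y hy hxy
    have h1 := hdiff x hx y hy
    rw [hxy, sub_self, zero_smul, zero_sub] at h1
    set b : ℝ := (x.2.2 : ℝ) / x.2.1 - (y.2.2 : ℝ) / y.2.1 with hb
    have h2 : dz ρ (-(b • sq2 w)) = b ^ 2 * dz ρ (sq2 w) := by
      unfold dz
      simp only [Prod.fst_neg, Prod.snd_neg, Prod.smul_fst, Prod.smul_snd, smul_eq_mul]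
      ring
    have h3 : 3 / 4 * nr ρ w ^ 2 ≤ dz ρ (sq2 w) := by
      unfold dz nr sq2
      simp only
      have e : ((w.1 : ℝ) * w.2) ^ 2 = ((w.1 : ℝ) ^ 2 / ρ) * (ρ * (w.2 : ℝ) ^ 2) := by
        field_simp
      rw [e]
      nlinarith [sq_nonneg ((w.1 : ℝ) ^ 2 / ρ - ρ * (w.2 : ℝ) ^ 2)]
    rw [h2] at h1
    have h4 : b ^ 2 * nr ρ w ^ 2 ≤ 16 * η ^ 2 := by
      have := mul_le_mul_of_nonneg_left h3 (sq_nonneg b)
      nlinarith [sq_nonneg η]
    rw [le_div_iff₀ hW]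
    have h5 : (|b| * nr ρ w) ^ 2 ≤ (4 * η) ^ 2 := by
      rw [mul_pow, sq_abs]
      nlinarith
    exact (abs_le_of_sq_le_sq' h5 (by positivity)).2
  have hA0 : (0 : ℝ) < A := by linarith
  have hB0 : (0 : ℝ) < B := by linarith
  have hN : (0 : ℝ) ≤ 1 + 4 * η * B ^ 2 / nr ρ w := by positivity
  refine card_fib F Prod.fst _ _ hN ?_ ?_
  · -- fibres
    intro a ha
    have h1 : ((F.filter fun x => x.1 = a).card : ℝ) ≤ 1 + (4 * η / nr ρ w) / (1 / B ^ 2) := by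
      refine sep_card (F.filter fun x => x.1 = a) (fun x => (x.2.2 : ℝ) / x.2.1) (1 / B ^ 2)
        (4 * η / nr ρ w) (by positivity) (by positivity) ?_ ?_
      · intro x hx y hy hne
        rw [Finset.mem_filter] at hx hy
        have hx1 := hF x hx.1
        have hy1 := hF y hy.1
        refine frac_gap hx1.2.2.2.1 hx1.2.2.2.2.1 hx1.2.2.2.2.2.1 hy1.2.2.2.1 hy1.2.2.2.2.1
          hy1.2.2.2.2.2.1 ?_
        intro h
        apply hne
        have e1 : x.2.1 = y.2.1 := congrArg Prod.fst h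
        have e2 : x.2.2 = y.2.2 := congrArg Prod.snd h
        exact Prod.ext (hx.2.trans hy.2.symm) (Prod.ext e1 e2)
      · intro x hx y hy
        rw [Finset.mem_filter] at hx hy
        exact hsecond x hx.1 y hy.1 (hx.2.trans hy.2.symm)
    have h2 : (4 * η / nr ρ w) / (1 / B ^ 2) = 4 * η * B ^ 2 / nr ρ w := by
      field_simp
    rw [h2] at h1
    exact h1
  · -- the image
    set l : ℝ := 4 * η * Real.sqrt (nr ρ w) / (|(det v w : ℝ)| * Real.sqrt (nr ρ v)) with hl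
    have hl0 : 0 ≤ l := by positivity
    have h1 : ((F.image Prod.fst).card : ℝ) ≤ 1 + l / (1 / A ^ 2) := by
      refine sep_card (F.image Prod.fst) (fun x => (x.2 : ℝ) / x.1) (1 / A ^ 2) l (by positivity)
        hl0 ?_ ?_
      · intro x hx y hy hne
        obtain ⟨x', hx', rfl⟩ := Finset.mem_image.1 hx
        obtain ⟨y', hy', rfl⟩ := Finset.mem_image.1 hy
        have hx1 := hF x' hx'
        have hy1 := hF y' hy'
        exact frac_gap hx1.1 hx1.2.1 hx1.2.2.1 hy1.1 hy1.2.1 hy1.2.2.1 hne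
      · intro x hx y hy
        obtain ⟨x', hx', rfl⟩ := Finset.mem_image.1 hx
        obtain ⟨y', hy', rfl⟩ := Finset.mem_image.1 hy
        exact hfirst x' hx' y' hy'
    have h2 : l / (1 / A ^ 2) =
        4 * η * A ^ 2 * Real.sqrt (nr ρ w) / (|(det v w : ℝ)| * Real.sqrt (nr ρ v)) := by
      rw [hl]
      field_simp
    rw [h2] at h1
    exact h1

end Pool.Agent.H23.FM
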