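import Pool.Agent.H23.FM.CAB

/-!
# Fourth moment over the class groups: row CNT, the number of coincidences for two vectors
-/

set_option autoImplicit false

open MeasureTheory Set Filter
open scoped Real Matrix MatrixGroups

namespace Pool.Agent.H23.FM

open Pool.Agent.H31.CN Pool.Agent.H89.FM

theorem det_le {ρ : ℝ} (hρ : 0 < ρ) (v w : ℤ × ℤ) :
    |(det v w : ℝ)| ≤ Real.sqrt (nr ρ v * nr ρ w) := by
  refine Real.le_sqrt_of_sq_le ?_
  rw [sq_abs]
  have e : nr ρ v * nr ρ w - (det v w : ℝ) ^ 2 =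
      ((v.1 : ℝ) * w.1 / ρ + ρ * (v.2 * w.2)) ^ 2 := by
    unfold nr det
    push_cast
    field_simp
    ring
  have := sq_nonneg ((v.1 : ℝ) * w.1 / ρ + ρ * (v.2 * w.2))
  linarith

theorem pf_CNT (hCZ : T_CZ) (hCAB : T_CAB) : T_CNT := by
  classical
  obtain ⟨C₁, hC₁⟩ := hCZ
  obtain ⟨C₂, hC₂0, hC₂⟩ := hCAB
  refine ⟨|C₁| * (1 + C₂) ^ 2, by positivity, ?_⟩
  intro ρ η Λ A B v w μ F hρ hη hΛ hA hB hv hw hdet hηv hηw hF
  obtain ⟨hv0, hw0⟩ := ne_of_det hdet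
  have hV : 0 < nr ρ v := nr_pos hρ hv0
  have hW : 0 < nr ρ w := nr_pos hρ hw0
  have hd : (0 : ℝ) < |(det v w : ℝ)| := abs_pos.2 (by exact_mod_cast hdet)
  have hsv : 0 < Real.sqrt (nr ρ v) := Real.sqrt_pos.2 hV
  have hsw : 0 < Real.sqrt (nr ρ w) := Real.sqrt_pos.2 hW
  have hA0 : (0 : ℝ) < A := by linarith
  have hB0 : (0 : ℝ) < B := by linarith
  -- the image
  have him : ((F.image fun x => x.2.2).card : ℝ) ≤ |C₁| * Λ ^ 3 * |(det v w : ℝ)| := by
    have h1 := hC₁ ρ η Λ v w μ (F.image fun x => x.2.2) hρ hη hΛ hv hw hdet hηv hηw (by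
      intro Z hZ
      obtain ⟨x, hx, rfl⟩ := Finset.mem_image.1 hZ
      have h := hF x hx
      have hn : (0 : ℝ) < x.1.1 := by
        have : 0 < x.1.1 := by omega
        exact_mod_cast this
      have hn' : (0 : ℝ) < x.2.1.1 := by
        have : 0 < x.2.1.1 := by omega
        exact_mod_cast this
      refine ⟨(x.1.2 : ℝ) / x.1.1, (x.2.1.2 : ℝ) / x.2.1.1, by positivity, ?_, by positivity, ?_,
        h.2.2.2.2.2.2⟩
      · rw [div_lt_one hn]
        exact_mod_cast h.2.1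
      · rw [div_lt_one hn']
        exact_mod_cast h.2.2.2.2.1)
    refine h1.trans ?_
    refine mul_le_mul_of_nonneg_right (mul_le_mul_of_nonneg_right (le_abs_self _) (by positivity))
      (abs_nonneg _)
  -- the fibres
  set N : ℝ := (1 + C₂ * η * A ^ 2 * Real.sqrt (nr ρ w) /
    (|(det v w : ℝ)| * Real.sqrt (nr ρ v))) * (1 + C₂ * η * B ^ 2 / nr ρ w) with hN
  have hN0 : 0 ≤ N := by positivity
  have hfib : ∀ Z ∈ F.image (fun x => x.2.2), ((F.filter fun x => x.2.2 = Z).card : ℝ) ≤ N := by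
    intro Z hZ
    have hinj : Set.InjOn (fun x : (ℕ × ℕ) × (ℕ × ℕ) × QF => (x.1, x.2.1))
        (F.filter fun x => x.2.2 = Z : Finset _) := by
      intro x hx y hy hxy
      have hx1 := (Finset.mem_filter.1 hx).2
      have hy1 := (Finset.mem_filter.1 hy).2
      have hxy' : (x.1, x.2.1) = (y.1, y.2.1) := hxy
      have e1 : x.1 = y.1 := (Prod.mk.inj hxy').1
      have e2 : x.2.1 = y.2.1 := (Prod.mk.inj hxy').2
      exact Prod.ext e1 (Prod.ext e2 (hx1.trans hy1.symm))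
    rw [← Finset.card_image_of_injOn hinj]
    refine hC₂ ρ η A B v w (rl Z + μ) _ hρ hη hA hB hdet ?_
    intro y hy
    obtain ⟨x, hx, rfl⟩ := Finset.mem_image.1 hy
    obtain ⟨hx1, hx2⟩ := Finset.mem_filter.1 hx
    have h := hF x hx1
    rw [hx2] at h
    exact h
  have hcard := card_fib F (fun x => x.2.2) N _ hN0 hfib him
  refine hcard.trans ?_
  have hdle := det_le hρ v w
  set S : ℝ := Real.sqrt (nr ρ v * nr ρ w) with hS
  have hS0 : 0 ≤ S := Real.sqrt_nonneg _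
  have hSe : S = Real.sqrt (nr ρ v) * Real.sqrt (nr ρ w) := Real.sqrt_mul hV.le _
  have k1 : |(det v w : ℝ)| * (1 + C₂ * η * A ^ 2 * Real.sqrt (nr ρ w) /
      (|(det v w : ℝ)| * Real.sqrt (nr ρ v))) ≤ S * ((1 + C₂) * (1 + η * A ^ 2 / nr ρ v)) := by
    have e1 : |(det v w : ℝ)| * (1 + C₂ * η * A ^ 2 * Real.sqrt (nr ρ w) /
      (|(det v w : ℝ)| * Real.sqrt (nr ρ v))) = |(det v w : ℝ)| +
        S * (C₂ * (η * A ^ 2 / nr ρ v)) := by
      rw [hSe]
      have e2 : nr ρ v = Real.sqrt (nr ρ v) * Real.sqrt (nr ρ v) :=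
        (Real.mul_self_sqrt hV.le).symm
      have e3 : η * A ^ 2 / nr ρ v = η * A ^ 2 / (Real.sqrt (nr ρ v) * Real.sqrt (nr ρ v)) := by
        rw [← e2]
      rw [e3]
      field_simp
    rw [e1]
    have hx : 0 ≤ η * A ^ 2 / nr ρ v := by positivity
    nlinarith [mul_nonneg hS0 hx, mul_nonneg hS0 hC₂0]
  have k2 : 1 + C₂ * η * B ^ 2 / nr ρ w ≤ (1 + C₂) * (1 + η * B ^ 2 / nr ρ w) := by
    have hx : 0 ≤ η * B ^ 2 / nr ρ w := by positivity
    have e : C₂ * η * B ^ 2 / nr ρ w = C₂ * (η * B ^ 2 / nr ρ w) := by ring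
    rw [e]
    nlinarith
  calc |C₁| * Λ ^ 3 * |(det v w : ℝ)| * N
      = |C₁| * Λ ^ 3 * ((|(det v w : ℝ)| * (1 + C₂ * η * A ^ 2 * Real.sqrt (nr ρ w) /
          (|(det v w : ℝ)| * Real.sqrt (nr ρ v)))) * (1 + C₂ * η * B ^ 2 / nr ρ w)) := by
        rw [hN]
        ring
    _ ≤ |C₁| * Λ ^ 3 * ((S * ((1 + C₂) * (1 + η * A ^ 2 / nr ρ v))) *
          ((1 + C₂) * (1 + η * B ^ 2 / nr ρ w))) := by
        refine mul_le_mul_of_nonneg_left ?_ (by positivity)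
        refine mul_le_mul k1 k2 (by positivity) (by positivity)
    _ = |C₁| * (1 + C₂) ^ 2 * Λ ^ 3 * S * (1 + η * A ^ 2 / nr ρ v) *
          (1 + η * B ^ 2 / nr ρ w) := by ring

end Pool.Agent.H23.FM
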