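import Pool.Agent.H23.FM.CAB

/-!
# Fourth moment over the class groups: row CZ, the dual points near the plane of two vectors
-/

set_option autoImplicit false

open MeasureTheory Set Filter
open scoped Real Matrix MatrixGroups

namespace Pool.Agent.H23.FM

open Pool.Agent.H31.CN Pool.Agent.H89.FM

/-- the bilinear form of an integral symmetric matrix -/
def BZ (Z : QF) (x y : ℤ × ℤ) : ℤ :=
  Z.1 * x.1 * y.1 + Z.2.1 * (x.1 * y.2 + x.2 * y.1) + Z.2.2 * x.2 * y.2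

/-- the real vector of an integral vector -/
def rv (x : ℤ × ℤ) : ℝ × ℝ := ((x.1 : ℝ), (x.2 : ℝ))

/-- rotation -/
def rot (x : ℤ × ℤ) : ℤ × ℤ := (-x.2, x.1)

theorem BF_rl (Z : QF) (x y : ℤ × ℤ) : BF (rl Z) (rv x) (rv y) = (BZ Z x y : ℝ) := by
  unfold BF rl rv BZ
  push_cast
  ring

theorem BF_split (ν μ : ℝ × ℝ × ℝ) (α β : ℝ) (v w : ℤ × ℤ) (x y : ℝ × ℝ) :
    BF (ν + μ + α • sq2 v - β • sq2 w) x y = BF ν x y + BF μ x y +
      α * (((v.1 : ℝ) * x.1 + v.2 * x.2) * ((v.1 : ℝ) * y.1 + v.2 * y.2)) -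
      β * (((w.1 : ℝ) * x.1 + w.2 * x.2) * ((w.1 : ℝ) * y.1 + w.2 * y.2)) := by
  unfold BF sq2
  simp only [Prod.fst_sub, Prod.snd_sub, Prod.fst_add, Prod.snd_add, Prod.smul_fst, Prod.smul_snd,
    smul_eq_mul]
  ring

theorem BF_bound {ρ η L : ℝ} (hρ : 0 < ρ) (hη : 0 < η) (hL : 1 ≤ L) {E : ℝ × ℝ × ℝ}
    (hE : dz ρ E ≤ η ^ 2) {u u' : ℤ × ℤ} (hu : η * nr ρ u ≤ L) (hu' : η * nr ρ u' ≤ L) :
    |BF E (rv (rot u)) (rv (rot u'))| ≤ 2 * L := by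
  have h1 := BF_sq_le hρ E (rv (rot u)) (rv (rot u'))
  have e : ∀ u : ℤ × ℤ, ρ * (rv (rot u)).1 ^ 2 + (rv (rot u)).2 ^ 2 / ρ = nr ρ u := by
    intro u
    unfold rv rot nr
    push_cast
    ring
  rw [e, e] at h1
  have hn : ∀ u : ℤ × ℤ, 0 ≤ nr ρ u := fun u => by unfold nr; positivity
  have h2 : dz ρ E * nr ρ u * nr ρ u' ≤ (η * nr ρ u) * (η * nr ρ u') := by
    have h3 : dz ρ E * (nr ρ u * nr ρ u') ≤ η ^ 2 * (nr ρ u * nr ρ u') :=
      mul_le_mul_of_nonneg_right hE (mul_nonneg (hn u) (hn u'))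
    nlinarith
  have h3 : (η * nr ρ u) * (η * nr ρ u') ≤ L * L :=
    mul_le_mul hu hu' (mul_nonneg hη.le (hn u')) (by linarith)
  have h4 : BF E (rv (rot u)) (rv (rot u')) ^ 2 ≤ (2 * L) ^ 2 := by nlinarith
  exact abs_le_of_sq_le_sq h4 (by linarith)

theorem pf_CZ : T_CZ := by
  classical
  refine ⟨180, ?_⟩
  intro ρ η Λ v w μ F hρ hη hΛ hv hw hdet hηv hηw hF
  -- Bezout
  have hcv : IsCoprime v.1 v.2 := Int.isCoprime_iff_gcd_eq_one.2 hv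
  have hcw : IsCoprime w.1 w.2 := Int.isCoprime_iff_gcd_eq_one.2 hw
  obtain ⟨a, b, hab⟩ := hcv
  obtain ⟨a', b', hab'⟩ := hcw
  obtain ⟨d, hd⟩ : ∃ d : ℤ, d = det v w := ⟨_, rfl⟩
  obtain ⟨t, ht⟩ : ∃ t : ℤ × ℤ, t = (-a, -b) := ⟨_, rfl⟩
  obtain ⟨r, hr⟩ : ∃ r : ℤ, r = w.2 * b + w.1 * a := ⟨_, rfl⟩
  rw [← hd] at hdet ⊢
  -- coordinates
  obtain ⟨p, hp⟩ : ∃ p : QF → ℤ, p = fun Z => BZ Z (rot v) (rot v) := ⟨_, rfl⟩
  obtain ⟨q, hq⟩ : ∃ q : QF → ℤ, q = fun Z => BZ Z (rot v) (rot w) := ⟨_, rfl⟩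
  obtain ⟨h, hh⟩ : ∃ h : QF → ℤ, h = fun Z => BZ Z (rot v) t := ⟨_, rfl⟩
  obtain ⟨k, hk⟩ : ∃ k : QF → ℤ, k = fun Z => BZ Z t t := ⟨_, rfl⟩
  obtain ⟨m, hm⟩ : ∃ m : QF → ℤ, m = fun Z => BZ Z (rot w) (rot w) := ⟨_, rfl⟩
  have hbr1 : w.2 = r * v.2 + d * a := by
    rw [hr, hd]
    unfold det
    linear_combination (-(w.2)) * hab
  have hbr2 : w.1 = r * v.1 - d * b := by
    rw [hr, hd]
    unfold det
    linear_combination (-(w.1)) * hab
  have hqp : ∀ Z, q Z = r * p Z + d * h Z := by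
    intro Z
    rw [hq, hp, hh]
    simp only [BZ, rot, ht]
    rw [hbr1, hbr2]
    ring
  have hmp : ∀ Z, m Z = r ^ 2 * p Z + 2 * r * d * h Z + d ^ 2 * k Z := by
    intro Z
    rw [hm, hp, hh, hk]
    simp only [BZ, rot, ht]
    rw [hbr1, hbr2]
    ring
  have hcop : IsCoprime d r := by
    refine ⟨-(b * a') + a * b', v.1 * a' + v.2 * b', ?_⟩
    linear_combination hab' - a' * hbr2 - b' * hbr1
  -- the coordinates determine the point
  have hinj : ∀ Z Z' : QF, p Z = p Z' → h Z = h Z' → k Z = k Z' → Z = Z' := by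
    intro Z Z' h1 h2 h3
    have i1 : ∀ Z : QF, Z.1 = b ^ 2 * p Z + 2 * b * v.1 * h Z + v.1 ^ 2 * k Z := by
      intro Z
      rw [hp, hh, hk]
      simp only [BZ, rot, ht]
      linear_combination (-(Z.1) * (a * v.1 + b * v.2 + 1)) * hab
    have i3 : ∀ Z : QF, Z.2.2 = a ^ 2 * p Z - 2 * a * v.2 * h Z + v.2 ^ 2 * k Z := by
      intro Z
      rw [hp, hh, hk]
      simp only [BZ, rot, ht]
      linear_combination (-(Z.2.2) * (a * v.1 + b * v.2 + 1)) * hab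
    have i2 : ∀ Z : QF, Z.2.1 = -(a * b) * p Z + (b * v.2 - a * v.1) * h Z + v.1 * v.2 * k Z := by
      intro Z
      rw [hp, hh, hk]
      simp only [BZ, rot, ht]
      linear_combination (-(Z.2.1) * (a * v.1 + b * v.2 + 1)) * hab
    refine Prod.ext ?_ (Prod.ext ?_ ?_)
    · rw [i1 Z, i1 Z', h1, h2, h3]
    · rw [i2 Z, i2 Z', h1, h2, h3]
    · rw [i3 Z, i3 Z', h1, h2, h3]
  have hD1 : (1 : ℝ) ≤ |(d : ℝ)| := by
    have : (1 : ℤ) ≤ |d| := Int.one_le_abs hdet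
    exact_mod_cast this
  have hD0 : (0 : ℝ) < |(d : ℝ)| := by linarith
  have hd2 : (d : ℝ) ^ 2 = |(d : ℝ)| ^ 2 := (sq_abs _).symm
  -- real estimates
  have hest : ∀ Z ∈ F, ∃ α β : ℝ, 0 ≤ α ∧ α < 1 ∧ 0 ≤ β ∧ β < 1 ∧
      |(q Z : ℝ) + BF μ (rv (rot v)) (rv (rot w))| ≤ 2 * Λ ∧
      |(p Z : ℝ) + BF μ (rv (rot v)) (rv (rot v)) - β * (d : ℝ) ^ 2| ≤ 2 * Λ ∧
      |(m Z : ℝ) + BF μ (rv (rot w)) (rv (rot w)) + α * (d : ℝ) ^ 2| ≤ 2 * Λ := by
    intro Z hZ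
    obtain ⟨α, β, hα0, hα1, hβ0, hβ1, hE⟩ := hF Z hZ
    refine ⟨α, β, hα0, hα1, hβ0, hβ1, ?_, ?_, ?_⟩
    · have h1 := BF_bound hρ hη hΛ hE hηv hηw
      rw [BF_split, BF_rl] at h1
      have e : ((v.1 : ℝ) * (rv (rot v)).1 + v.2 * (rv (rot v)).2) = 0 := by
        simp only [rv, rot]
        push_cast
        ring
      have e' : ((w.1 : ℝ) * (rv (rot w)).1 + w.2 * (rv (rot w)).2) = 0 := by
        simp only [rv, rot]
        push_cast
        ring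
      rw [e, e'] at h1
      rw [hq]
      simpa using h1
    · have h1 := BF_bound hρ hη hΛ hE hηv hηv
      rw [BF_split, BF_rl] at h1
      have e : ((v.1 : ℝ) * (rv (rot v)).1 + v.2 * (rv (rot v)).2) = 0 := by
        simp only [rv, rot]
        push_cast
        ring
      have e' : ((w.1 : ℝ) * (rv (rot v)).1 + w.2 * (rv (rot v)).2) = (d : ℝ) := by
        rw [hd]
        simp only [rv, rot, det]
        push_cast
        ring
      rw [e, e'] at h1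
      have e2 : (BZ Z (rot v) (rot v) : ℝ) + BF μ (rv (rot v)) (rv (rot v)) + α * (0 * 0) -
          β * ((d : ℝ) * d) = (p Z : ℝ) + BF μ (rv (rot v)) (rv (rot v)) - β * (d : ℝ) ^ 2 := by
        rw [hp]
        ring
      rwa [e2] at h1
    · have h1 := BF_bound hρ hη hΛ hE hηw hηw
      rw [BF_split, BF_rl] at h1
      have e : ((v.1 : ℝ) * (rv (rot w)).1 + v.2 * (rv (rot w)).2) = -(d : ℝ) := by
        rw [hd]
        simp only [rv, rot, det]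
        push_cast
        ring
      have e' : ((w.1 : ℝ) * (rv (rot w)).1 + w.2 * (rv (rot w)).2) = 0 := by
        simp only [rv, rot]
        push_cast
        ring
      rw [e, e'] at h1
      have e2 : (BZ Z (rot w) (rot w) : ℝ) + BF μ (rv (rot w)) (rv (rot w)) +
          α * (-(d : ℝ) * -(d : ℝ)) - β * (0 * 0) =
          (m Z : ℝ) + BF μ (rv (rot w)) (rv (rot w)) + α * (d : ℝ) ^ 2 := by
        rw [hm]
        ring
      rwa [e2] at h1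
  have hclose : ∀ Z ∈ F, ∀ Z' ∈ F, |(q Z : ℝ) - q Z'| ≤ 4 * Λ ∧
      |(p Z : ℝ) - p Z'| ≤ 4 * Λ + (d : ℝ) ^ 2 ∧ |(m Z : ℝ) - m Z'| ≤ 4 * Λ + (d : ℝ) ^ 2 := by
    intro Z hZ Z' hZ'
    obtain ⟨α, β, hα0, hα1, hβ0, hβ1, h1, h2, h3⟩ := hest Z hZ
    obtain ⟨α', β', hα0', hα1', hβ0', hβ1', h1', h2', h3'⟩ := hest Z' hZ'
    have hsq : 0 ≤ (d : ℝ) ^ 2 := sq_nonneg _
    rw [abs_le] at h1 h2 h3 h1' h2' h3'
    refine ⟨?_, ?_, ?_⟩
    · rw [abs_le]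
      constructor <;> linarith
    · have hb1 : (β - β') * (d : ℝ) ^ 2 ≤ (d : ℝ) ^ 2 := by nlinarith
      have hb2 : -(d : ℝ) ^ 2 ≤ (β - β') * (d : ℝ) ^ 2 := by nlinarith
      rw [abs_le]
      constructor <;> nlinarith
    · have hb1 : (α - α') * (d : ℝ) ^ 2 ≤ (d : ℝ) ^ 2 := by nlinarith
      have hb2 : -(d : ℝ) ^ 2 ≤ (α - α') * (d : ℝ) ^ 2 := by nlinarith
      rw [abs_le]
      constructor <;> nlinarith
  have hΛ0 : (0 : ℝ) < Λ := by linarith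
  -- level 3
  have lev3 : ∀ q₀ p₀ : ℤ,
      (((F.filter fun Z => q Z = q₀).filter fun Z => p Z = p₀).card : ℝ) ≤ 2 + 4 * Λ := by
    intro q₀ p₀
    set G := (F.filter fun Z => q Z = q₀).filter fun Z => p Z = p₀ with hG
    have hmem : ∀ Z ∈ G, Z ∈ F ∧ q Z = q₀ ∧ p Z = p₀ := by
      intro Z hZ
      rw [hG, Finset.mem_filter, Finset.mem_filter] at hZ
      exact ⟨hZ.1.1, hZ.1.2, hZ.2⟩
    have hhh : ∀ Z ∈ G, ∀ Z' ∈ G, h Z = h Z' := by
      intro Z hZ Z' hZ'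
      have h1 := hqp Z
      have h2 := hqp Z'
      rw [(hmem Z hZ).2.1, (hmem Z hZ).2.2] at h1
      rw [(hmem Z' hZ').2.1, (hmem Z' hZ').2.2] at h2
      have h3 : d * h Z = d * h Z' := by linarith
      exact mul_left_cancel₀ hdet h3
    have h1 : (G.card : ℝ) ≤ 1 + (4 * Λ + 1) / 1 := by
      refine sep_card G (fun Z => (k Z : ℝ)) 1 (4 * Λ + 1) one_pos (by linarith) ?_ ?_
      · intro Z hZ Z' hZ' hne
        have hkne : k Z - k Z' ≠ 0 := by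
          intro h0
          apply hne
          exact hinj Z Z' ((hmem Z hZ).2.2.trans (hmem Z' hZ').2.2.symm) (hhh Z hZ Z' hZ')
            (by linarith)
        have : (1 : ℤ) ≤ |k Z - k Z'| := Int.one_le_abs hkne
        exact_mod_cast this
      · intro Z hZ Z' hZ'
        have h2 := (hclose Z (hmem Z hZ).1 Z' (hmem Z' hZ').1).2.2
        have h3 : (m Z : ℝ) - m Z' = (d : ℝ) ^ 2 * ((k Z : ℝ) - k Z') := by
          have h4 : m Z - m Z' = d ^ 2 * (k Z - k Z') := by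
            rw [hmp Z, hmp Z', hhh Z hZ Z' hZ', (hmem Z hZ).2.2, (hmem Z' hZ').2.2]
            ring
          exact_mod_cast h4
        rw [h3, abs_mul, abs_of_nonneg (sq_nonneg (d : ℝ)), hd2] at h2
        have h5 : (1 : ℝ) ≤ |(d : ℝ)| ^ 2 := by nlinarith
        have h6 := abs_nonneg ((k Z : ℝ) - k Z')
        by_contra hcon
        push Not at hcon
        have h7 : |(d : ℝ)| ^ 2 * (4 * Λ + 1) < |(d : ℝ)| ^ 2 * |(k Z : ℝ) - k Z'| :=
          mul_lt_mul_of_pos_left hcon (by linarith)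
        nlinarith
    rw [div_one] at h1
    linarith
  -- level 2
  have lev2 : ∀ q₀ : ℤ, ((F.filter fun Z => q Z = q₀).card : ℝ) ≤
      (1 + (4 * Λ + (d : ℝ) ^ 2) / |(d : ℝ)|) * (2 + 4 * Λ) := by
    intro q₀
    refine card_fib (F.filter fun Z => q Z = q₀) p _ _ (by linarith)
      (fun p₀ _ => lev3 q₀ p₀) ?_
    refine sep_card ((F.filter fun Z => q Z = q₀).image p) (fun x => (x : ℝ)) |(d : ℝ)|
      (4 * Λ + (d : ℝ) ^ 2) hD0 (by positivity) ?_ ?_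
    · intro x hx y hy hne
      obtain ⟨Z, hZ, rfl⟩ := Finset.mem_image.1 hx
      obtain ⟨Z', hZ', rfl⟩ := Finset.mem_image.1 hy
      rw [Finset.mem_filter] at hZ hZ'
      have h1 := hqp Z
      have h2 := hqp Z'
      rw [hZ.2] at h1
      rw [hZ'.2] at h2
      have h3 : d ∣ r * (p Z - p Z') := ⟨h Z' - h Z, by linarith⟩
      have h4 : d ∣ p Z - p Z' := hcop.dvd_of_dvd_mul_left h3
      have h5 : p Z - p Z' ≠ 0 := sub_ne_zero.2 hne
      have h6 : |d| ≤ |p Z - p Z'| := by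
        have := Int.le_of_dvd (abs_pos.2 h5) ((abs_dvd_abs _ _).2 h4)
        exact this
      exact_mod_cast h6
    · intro x hx y hy
      obtain ⟨Z, hZ, rfl⟩ := Finset.mem_image.1 hx
      obtain ⟨Z', hZ', rfl⟩ := Finset.mem_image.1 hy
      rw [Finset.mem_filter] at hZ hZ'
      exact (hclose Z hZ.1 Z' hZ'.1).2.1
  -- level 1
  have lev1 : (F.card : ℝ) ≤
      (1 + 4 * Λ / 1) * ((1 + (4 * Λ + (d : ℝ) ^ 2) / |(d : ℝ)|) * (2 + 4 * Λ)) := by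
    refine card_fib F q _ _ (by positivity) (fun q₀ _ => lev2 q₀) ?_
    refine sep_card (F.image q) (fun x => (x : ℝ)) 1 (4 * Λ) one_pos (by linarith) ?_ ?_
    · intro x hx y hy hne
      have : (1 : ℤ) ≤ |x - y| := Int.one_le_abs (sub_ne_zero.2 hne)
      exact_mod_cast this
    · intro x hx y hy
      obtain ⟨Z, hZ, rfl⟩ := Finset.mem_image.1 hx
      obtain ⟨Z', hZ', rfl⟩ := Finset.mem_image.1 hy
      exact (hclose Z hZ Z' hZ').1
  -- the end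
  have h1 : (4 * Λ + (d : ℝ) ^ 2) / |(d : ℝ)| ≤ 5 * Λ * |(d : ℝ)| := by
    rw [div_le_iff₀ hD0, hd2]
    have h5 : (1 : ℝ) ≤ |(d : ℝ)| ^ 2 := by nlinarith
    have h6 : 4 * Λ * 1 ≤ 4 * Λ * |(d : ℝ)| ^ 2 := mul_le_mul_of_nonneg_left h5 (by linarith)
    have h7 : 1 * |(d : ℝ)| ^ 2 ≤ Λ * |(d : ℝ)| ^ 2 := mul_le_mul_of_nonneg_right hΛ (by positivity)
    linarith
  have h2 : 1 + (4 * Λ + (d : ℝ) ^ 2) / |(d : ℝ)| ≤ 6 * Λ * |(d : ℝ)| := by
    have : 1 ≤ Λ * |(d : ℝ)| := by nlinarith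
    linarith
  have h3 : 1 + 4 * Λ / 1 ≤ 5 * Λ := by rw [div_one]; linarith
  have h4 : 2 + 4 * Λ ≤ 6 * Λ := by linarith
  calc (F.card : ℝ) ≤ _ := lev1
    _ ≤ (5 * Λ) * ((6 * Λ * |(d : ℝ)|) * (6 * Λ)) := by
        refine mul_le_mul h3 (mul_le_mul h2 h4 (by linarith) (by positivity)) (by positivity)
          (by positivity)
    _ = 180 * Λ ^ 3 * |(d : ℝ)| := by ring

end Pool.Agent.H23.FM
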