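import Pool.Agent.H61.FM.Targets
import Pool.Agent.H18.CG.CH

/-!
# Fourth moment over the class groups: row PVL, Parseval's identity for a finite abelian group
-/

set_option autoImplicit false

open Complex

namespace Pool.Agent.H23.FM

open Pool.Agent.H18.CG Pool.Agent.H61.FM

theorem pf_PVL : T_PVL := by
  intro G _ _ _ z
  classical
  have hc : Fintype.card (G →* ℂˣ) = Fintype.card G := by
    have := CommGroup.card_monoidHom_of_hasEnoughRootsOfUnity G ℂ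
    rwa [Nat.card_eq_fintype_card, Nat.card_eq_fintype_card] at this
  have e0 : ((∑ ψ : G →* ℂˣ, ‖∑ g, (((ψ g)⁻¹ : ℂˣ) : ℂ) * z g‖ ^ 2 : ℝ) : ℂ) =
      ∑ g, ∑ g', (∑ ψ : G →* ℂˣ, ((ψ (g⁻¹ * g') : ℂˣ) : ℂ)) *
        (z g * (starRingEnd ℂ) (z g')) := by
    rw [Complex.ofReal_sum]
    have e1 : ∀ ψ : G →* ℂˣ, ((‖∑ g, (((ψ g)⁻¹ : ℂˣ) : ℂ) * z g‖ ^ 2 : ℝ) : ℂ) =
        ∑ g, ∑ g', ((ψ (g⁻¹ * g') : ℂˣ) : ℂ) * (z g * (starRingEnd ℂ) (z g')) := by
      intro ψ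
      rw [Complex.ofReal_pow, ← Complex.mul_conj']
      rw [map_sum, Finset.sum_mul_sum]
      refine Finset.sum_congr rfl fun g _ => Finset.sum_congr rfl fun g' _ => ?_
      rw [map_mul, ← map_inv, ← map_inv, conj_char, inv_inv, map_mul, Units.val_mul]
      ring
    simp only [e1]
    rw [Finset.sum_comm]
    refine Finset.sum_congr rfl fun g _ => ?_
    rw [Finset.sum_comm]
    refine Finset.sum_congr rfl fun g' _ => ?_
    rw [Finset.sum_mul]
  have e2 : ∀ g, ∑ g', (∑ ψ : G →* ℂˣ, ((ψ (g⁻¹ * g') : ℂˣ) : ℂ)) *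
      (z g * (starRingEnd ℂ) (z g')) = ((Fintype.card G * ‖z g‖ ^ 2 : ℝ) : ℂ) := by
    intro g
    rw [Finset.sum_eq_single g]
    · simp only [inv_mul_cancel, map_one, Units.val_one, Finset.sum_const, Finset.card_univ, hc,
        nsmul_eq_mul, mul_one]
      rw [Complex.mul_conj']
      push_cast
      ring
    · intro g' _ hne
      rw [sum_all (g⁻¹ * g') (by
        intro h
        exact hne (inv_mul_eq_one.1 h).symm), zero_mul]
    · intro h
      exact absurd (Finset.mem_univ g) h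
  have e3 : ((∑ ψ : G →* ℂˣ, ‖∑ g, (((ψ g)⁻¹ : ℂˣ) : ℂ) * z g‖ ^ 2 : ℝ) : ℂ) =
      ((Fintype.card G * ∑ g, ‖z g‖ ^ 2 : ℝ) : ℂ) := by
    rw [e0, Finset.sum_congr rfl fun g _ => e2 g, ← Complex.ofReal_sum, Finset.mul_sum]
  exact_mod_cast e3

end Pool.Agent.H23.FM
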